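import Pool.Agent.H30.BV.Targets

/-!
# Two real characters cannot both be exceptional
-/

set_option autoImplicit false

open Finset Real ArithmeticFunction
open scoped Nat

namespace Pool.Agent.H69.BV

open Pool.Agent.H30.BV

theorem cl_apply {q m : ℕ} (χ : DirichletCharacter ℂ q) (h : q ∣ m) (n : ℕ)
    (hn : IsUnit (n : ZMod m)) :
    DirichletCharacter.changeLevel h χ (n : ZMod m) = cv χ n := by
  obtain ⟨u, hu⟩ := hn
  rw [← hu, DirichletCharacter.changeLevel_eq_cast_of_dvd χ h u, hu, ZMod.cast_natCast h]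
  rfl

theorem cv_mul {q₁ q₂ : ℕ} (χ₁ : DirichletCharacter ℂ q₁) (χ₂ : DirichletCharacter ℂ q₂)
    (n : ℕ) :
    cv (DirichletCharacter.changeLevel (dvd_mul_right q₁ q₂) χ₁ *
      DirichletCharacter.changeLevel (dvd_mul_left q₂ q₁) χ₂) n = cv χ₁ n * cv χ₂ n := by
  by_cases hn : IsUnit (n : ZMod (q₁ * q₂))
  · unfold cv
    rw [MulChar.mul_apply, cl_apply χ₁ _ n hn, cl_apply χ₂ _ n hn]
    rfl
  · have h1 : cv (DirichletCharacter.changeLevel (dvd_mul_right q₁ q₂) χ₁ *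
      DirichletCharacter.changeLevel (dvd_mul_left q₂ q₁) χ₂) n = 0 := MulChar.map_nonunit _ hn
    rw [h1]
    symm
    by_contra hcon
    have h2 := left_ne_zero_of_mul hcon
    have h3 := right_ne_zero_of_mul hcon
    have h4 : IsUnit (n : ZMod q₁) := by
      by_contra h
      exact h2 (MulChar.map_nonunit χ₁ h)
    have h5 : IsUnit (n : ZMod q₂) := by
      by_contra h
      exact h3 (MulChar.map_nonunit χ₂ h)
    rw [ZMod.isUnit_iff_coprime] at h4 h5 hn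
    exact hn (Nat.Coprime.mul_right h4 h5)

theorem ne_one {q₁ q₂ : ℕ} (h₁ : 2 ≤ q₁) (h₂ : 2 ≤ q₂) (hne : q₁ ≠ q₂)
    (χ₁ : DirichletCharacter ℂ q₁) (χ₂ : DirichletCharacter ℂ q₂) (hp₁ : χ₁.IsPrimitive)
    (hp₂ : χ₂.IsPrimitive) (hs₂ : χ₂ ^ 2 = 1) :
    DirichletCharacter.changeLevel (dvd_mul_right q₁ q₂) χ₁ *
      DirichletCharacter.changeLevel (dvd_mul_left q₂ q₁) χ₂ ≠ 1 := by
  intro h
  have hne0 : NeZero (q₁ * q₂) := ⟨Nat.mul_ne_zero (by omega) (by omega)⟩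
  have h3 : DirichletCharacter.changeLevel (dvd_mul_left q₂ q₁) χ₂ *
      DirichletCharacter.changeLevel (dvd_mul_left q₂ q₁) χ₂ = 1 := by
    rw [← map_mul, ← sq, hs₂, map_one]
  have h4 : DirichletCharacter.changeLevel (dvd_mul_right q₁ q₂) χ₁ =
      DirichletCharacter.changeLevel (dvd_mul_left q₂ q₁) χ₂ :=
    mul_right_cancel (h.trans h3.symm)
  have h5 := congrArg DirichletCharacter.conductor h4
  rw [DirichletCharacter.conductor_changeLevel, DirichletCharacter.conductor_changeLevel,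
    (DirichletCharacter.isPrimitive_def _).1 hp₁, (DirichletCharacter.isPrimitive_def _).1 hp₂] at h5
  exact hne h5

theorem pf_EA (hRP : T_RP) (hPB : T_PB) (hZB : T_ZB) (hCB : T_CB) : T_EA := by
  obtain ⟨C₁, hC₁, hZ⟩ := hZB
  obtain ⟨C₂, hC₂, hP⟩ := hPB 0
  have hl3 : 0 < Real.log 3 := Real.log_pos (by norm_num)
  refine ⟨(1 + C₁ * Real.log 3) * (3 * C₂), by positivity, ?_⟩
  intro Q q₁ q₂ χ₁ χ₂ x hQ h₁ hQ₁ h₂ hQ₂ hne hp₁ hp₂ hs₁ hs₂ hx hx1
  have hre : (1 + (x : ℂ)).re = 1 + x := by simp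
  have him : (1 + (x : ℂ)).im = 0 := by simp
  have hrp := hRP q₁ q₂ χ₁ χ₂ x (by omega) (by omega) hs₁ hs₂ hx hx1
  -- the zeta function
  have hz : ‖DS (fun _ => 1) 0 (1 + x)‖ ≤ (1 + C₁ * Real.log 3) / x := by
    have h3 := hZ (1 + x) (by rw [hre]; linarith) (by rw [hre]; linarith)
    have h4 : ‖(1 + (x : ℂ)) - 1‖ = x := by
      rw [add_sub_cancel_left, Complex.norm_real, Real.norm_eq_abs, abs_of_pos hx]
    rw [h4, him, abs_zero, zero_add] at h3
    refine h3.trans ?_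
    rw [add_div]
    have h5 : C₁ * Real.log 3 ≤ C₁ * Real.log 3 / x := by
      rw [le_div_iff₀ hx]
      have : 0 < C₁ * Real.log 3 := by positivity
      nlinarith
    linarith
  -- the product of the two characters
  have hQr : (3 : ℝ) ≤ Q := by exact_mod_cast hQ
  have hlQ : 0 < Real.log Q := Real.log_pos (by linarith)
  have hpb : ‖DS (fun n => cv χ₁ n * cv χ₂ n) 0 (1 + x)‖ ≤ 3 * C₂ * Real.log Q := by
    have h3 := hP (fun n => cv χ₁ n * cv χ₂ n) ((Q : ℝ) ^ 2) (1 + x) (by nlinarith) (by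
      intro n
      rw [norm_mul]
      have h6 : ‖cv χ₁ n‖ ≤ 1 := DirichletCharacter.norm_le_one χ₁ _
      have h7 : ‖cv χ₂ n‖ ≤ 1 := DirichletCharacter.norm_le_one χ₂ _
      nlinarith [norm_nonneg (cv χ₁ n), norm_nonneg (cv χ₂ n)]) (by
      intro M
      have h6 := hCB (q₁ * q₂) _ (Nat.one_le_iff_ne_zero.2 (Nat.mul_ne_zero (by omega) (by omega)))
        (ne_one h₁ h₂ hne χ₁ χ₂ hp₁ hp₂ hs₂) M
      rw [Finset.sum_congr rfl fun n _ => cv_mul χ₁ χ₂ n] at h6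
      refine h6.trans ?_
      rw [sq]
      exact_mod_cast Nat.mul_le_mul hQ₁ hQ₂)
      (by rw [hre]; linarith) (by rw [hre]; linarith)
    rw [him, abs_zero, zero_add, zero_add, pow_one] at h3
    refine h3.trans ?_
    have h5 : Real.log ((Q : ℝ) ^ 2 * 3) ≤ 3 * Real.log Q := by
      rw [show (3 : ℝ) * Real.log Q = Real.log ((Q : ℝ) ^ 3) by
        rw [Real.log_pow]; norm_num]
      refine Real.log_le_log (by positivity) ?_
      have : (Q : ℝ) ^ 3 = (Q : ℝ) ^ 2 * Q := by ring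
      rw [this]
      exact mul_le_mul_of_nonneg_left hQr (by positivity)
    nlinarith
  set a := ‖DS (fun _ => 1) 0 (1 + x)‖
  set b := ‖DS (cv χ₁) 0 (1 + x)‖
  set c := ‖DS (cv χ₂) 0 (1 + x)‖
  set d := ‖DS (fun n => cv χ₁ n * cv χ₂ n) 0 (1 + x)‖
  have hb : 0 ≤ b := norm_nonneg _
  have hc : 0 ≤ c := norm_nonneg _
  have hd : 0 ≤ d := norm_nonneg _
  calc (1 : ℝ) ≤ a * b * c * d := hrp
    _ ≤ ((1 + C₁ * Real.log 3) / x) * b * c * (3 * C₂ * Real.log Q) := by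
      refine mul_le_mul ?_ hpb hd (by positivity)
      exact mul_le_mul_of_nonneg_right (mul_le_mul_of_nonneg_right hz hb) hc
    _ = (1 + C₁ * Real.log 3) * (3 * C₂) / x * b * c * Real.log Q := by ring

end Pool.Agent.H69.BV
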